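import Pool.Agent.Q227.Vis.Tot
import Pool.Agent.Results.MP_cc0c1a_nt.Dichotomy

/-!
# A dense orbit is dense along the visit times of all minimal systems

Let `F` be the automaton of multiplication by `3/2` in base six.

1. If the orbit of a configuration `x` (finite or not) is dense, then for every minimal system `(Y, S)`
(`Y` compact Hausdorff, all orbits dense) and every `y ∈ Y` the points `(F^n x, S^n y)` are dense in the
product; in particular `{F^n x : S^n y ∈ W}` is dense for every nonempty open `W ⊆ Y`.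
2. The time needed is bounded uniformly in `y`.
3. So if one finite configuration has a dense orbit, every nonzero finite configuration has the
properties 1 and 2.
4. If for one nonzero finite configuration `x`, one minimal system, one `y` and one nonempty open `W`
the set `{F^n x : S^n y ∈ W}` is not dense, then for EVERY finite configuration the contents of the
windows `[-M, M]` seen along the WHOLE orbit are an exponentially small proportion of all words.
-/

set_option autoImplicit false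

open Filter Topology

namespace Pool.Agent.Results.MP_cc0c1a_nt.DenseAlongVisits

open Pool.Agent.H429R2.Auto
open Dichotomy (seen)

universe u

/-- all orbits of `S` are dense -/
def Minimal {Y : Type u} [TopologicalSpace Y] (S : Y → Y) : Prop :=
  Continuous S ∧ ∀ y : Y, Dense (Set.range fun n : ℕ => S^[n] y)

theorem dense_prod {x : Conf} (hx : Dense (orbit x)) {Y : Type u} [TopologicalSpace Y]
    [CompactSpace Y] [T2Space Y] {S : Y → Y} (hS : Minimal S) (y : Y) :
    Dense (Set.range fun n : ℕ => (F^[n] x, S^[n] y)) :=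
  Pool.Agent.Q227.Vis.F_disjoint hS.1 hS.2 (fun r hr => Pool.Agent.Q227.Vis.dense_pow hx r hr) y

theorem dense_visits {x : Conf} (hx : Dense (orbit x)) {Y : Type u} [TopologicalSpace Y]
    [CompactSpace Y] [T2Space Y] {S : Y → Y} (hS : Minimal S) (y : Y) {W : Set Y} (hW : IsOpen W)
    (hWn : W.Nonempty) : Dense {z : Conf | ∃ n : ℕ, S^[n] y ∈ W ∧ F^[n] x = z} := by
  rw [dense_iff_inter_open]
  intro U hU hUn
  obtain ⟨w, hw1, ⟨n, rfl⟩⟩ := (dense_prod hx hS y).inter_open_nonempty (U ×ˢ W) (hU.prod hW)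
    (hUn.prod hWn)
  exact ⟨_, hw1.1, ⟨n, hw1.2, rfl⟩⟩

theorem result :
    -- 1
    (∀ x : Conf, Dense (orbit x) → ∀ (Y : Type u) [TopologicalSpace Y] [CompactSpace Y] [T2Space Y]
      (S : Y → Y), Minimal S → ∀ y : Y,
      Dense (Set.range fun n : ℕ => (F^[n] x, S^[n] y)) ∧
      ∀ W : Set Y, IsOpen W → W.Nonempty →
        Dense {z : Conf | ∃ n : ℕ, S^[n] y ∈ W ∧ F^[n] x = z}) ∧
    -- 2
    (∀ x : Conf, Dense (orbit x) → ∀ (Y : Type u) [TopologicalSpace Y] [CompactSpace Y] [T2Space Y]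
      (S : Y → Y), Minimal S → ∀ W : Set Y, IsOpen W → W.Nonempty → ∀ (m : ℕ),
        ∃ N : ℕ, ∀ y : Y, ∀ w : Conf, ∃ n ≤ N, S^[n] y ∈ W ∧
          ∀ i : ℤ, -(m : ℤ) ≤ i → i ≤ m → F^[n] x i = w i) ∧
    -- 3
    ((∃ x : Conf, IsFin x ∧ Dense (orbit x)) → ∀ x : Conf, IsFin x → x ≠ 0 →
      ∀ (Y : Type u) [TopologicalSpace Y] [CompactSpace Y] [T2Space Y] (S : Y → Y), Minimal S →
      ∀ y : Y, Dense (Set.range fun n : ℕ => (F^[n] x, S^[n] y)) ∧
      ∀ W : Set Y, IsOpen W → W.Nonempty →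
        Dense {z : Conf | ∃ n : ℕ, S^[n] y ∈ W ∧ F^[n] x = z}) ∧
    -- 4
    (∀ x : Conf, IsFin x → x ≠ 0 → ∀ (Y : Type u) [TopologicalSpace Y] [CompactSpace Y] [T2Space Y]
      (S : Y → Y), Minimal S → ∀ y : Y, ∀ W : Set Y, IsOpen W → W.Nonempty →
      ¬ Dense {z : Conf | ∃ n : ℕ, S^[n] y ∈ W ∧ F^[n] x = z} →
      ∀ z : Conf, IsFin z → ∃ δ : ℝ, 0 < δ ∧ ∃ C : ℝ, ∀ M : ℕ,
        ((seen z M).ncard : ℝ) ≤ C * (6 : ℝ) ^ ((1 - δ) * (2 * M + 1))) := by
  refine ⟨fun x hx Y _ _ _ S hS y => ⟨dense_prod hx hS y, fun W hW hWn =>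
    dense_visits hx hS y hW hWn⟩, ?_, ?_, ?_⟩
  · intro x hx Y _ _ _ S hS W hW hWn m
    set U : (Fin (2 * m + 1) → Fin 6) → Set Conf :=
      fun w => {z | ∀ j : Fin (2 * m + 1), z ((j : ℕ) - m : ℤ) = w j} with hU
    have hUo : ∀ w, IsOpen (U w) := by
      intro w
      have : U w = ⋂ j : Fin (2 * m + 1), (fun z : Conf => z ((j : ℕ) - m : ℤ)) ⁻¹' {w j} := by
        ext z; simp [hU]
      rw [this]
      exact isOpen_iInter_of_finite fun j => (isOpen_discrete _).preimage (continuous_apply _)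
    have hUn : ∀ w, (U w).Nonempty := by
      intro w
      refine ⟨fun i => if h : (i + m).toNat < 2 * m + 1 then w ⟨(i + m).toNat, h⟩ else 0, fun j => ?_⟩
      show (if h : (((j : ℕ) : ℤ) - m + m).toNat < 2 * m + 1 then
        w ⟨(((j : ℕ) : ℤ) - m + m).toNat, h⟩ else 0) = w j
      have e : (((j : ℕ) : ℤ) - m + m).toNat = j := by omega
      simp only [e, j.isLt, dite_true]
    choose N hN using fun w => Pool.Agent.Q227.Vis.univ_ptF hS.1 hS.2 hW hWn
      (fun r hr => Pool.Agent.Q227.Vis.dense_pow hx r hr) (hUo w) (hUn w)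
    refine ⟨Finset.univ.sup N, fun y w => ?_⟩
    obtain ⟨n, hn, hn1, hn2⟩ := hN (fun j => w ((j : ℕ) - m : ℤ)) y
    refine ⟨n, hn.trans (Finset.le_sup (f := N) (Finset.mem_univ _)), hn2, fun i h1 h2 => ?_⟩
    obtain ⟨k, hk⟩ := Int.eq_ofNat_of_zero_le (by omega : 0 ≤ i + m)
    have h3 := hn1 ⟨k, by omega⟩
    have e : ((k : ℕ) : ℤ) - m = i := by omega
    simpa only [e] using h3
  · intro h x hx hx0 Y _ _ _ S hS y
    have hd := Dichotomy.result.1.1 h x hx hx0
    exact ⟨dense_prod hd hS y, fun W hW hWn => dense_visits hd hS y hW hWn⟩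
  · intro x hx hx0 Y _ _ _ S hS y W hW hWn hnd z hz
    refine Dichotomy.result.2 ⟨x, hx, hx0, fun hd => hnd (dense_visits hd hS y hW hWn)⟩ z hz

end Pool.Agent.Results.MP_cc0c1a_nt.DenseAlongVisits
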