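import Pool.Agent.Q227.Vis.Univ
import Pool.Agent.Results.MP_cc0c1a_nt.WordsInRowWindows

/-!
# Words at the visit cells of minimal systems, in every long window of most rows

Let `x` be a finite nonzero configuration, `(Y, S)` a minimal system (`Y` compact Hausdorff, all orbits
dense) and `W ⊆ Y` open and nonempty. Among any `M` consecutive times `n` all but `δ M` are such that
in every window of `ε n` consecutive cells of the part `(-n log_6 (3/2), n)` of the row `F^n x`, for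
EVERY point `y` of `Y` and every word of length `L`, the word stands at `M ^ (1 - κ)` or more cells `p`
with `S ^ (p - A) y ∈ W`, where `A` is the first cell of the window.
-/

set_option autoImplicit false

open Filter Topology

namespace Pool.Agent.Results.MP_cc0c1a_nt.VisitCells

open Pool.Agent.H429R2.Auto (F)
open WordsInRowWindows (ShowsAt)

/-- the universal word over the alphabet `{0, …, 5}` -/
theorem univ_list {Y : Type*} [TopologicalSpace Y] [CompactSpace Y] [T2Space Y] {S : Y → Y}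
    (hS : Continuous S) (hmin : ∀ y : Y, Dense (Set.range fun n : ℕ => S^[n] y)) {W : Set Y}
    (hW : IsOpen W) (hWn : W.Nonempty) (L : ℕ) :
    ∃ v : List (Fin 6), ∀ (x : ℤ → Fin 6) (p : ℤ), ShowsAt x v p → ∀ y : Y, ∀ w : List (Fin 6),
      w.length = L → ∃ n : ℕ, n + L ≤ v.length ∧ S^[n] y ∈ W ∧ ShowsAt x w (p + n) := by
  obtain ⟨V, K, hV, h⟩ := Pool.Agent.Q227.Vis.univ_word (b := 6) (by norm_num) hS hmin hW hWn L
  refine ⟨List.ofFn fun j : Fin K => (⟨V j, hV j⟩ : Fin 6), fun x p hx y w hw => ?_⟩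
  obtain ⟨n, hn1, hn2, hn3⟩ := h y (fun j => ((w.getD j 0 : Fin 6) : ℕ)) (fun j => Fin.isLt _)
  refine ⟨n, by rw [List.length_ofFn]; exact hn1, hn2, fun i hi => ?_⟩
  have h1 := hx (n + i) (by rw [List.length_ofFn]; omega)
  have h2 : p + ((n + i : ℕ) : ℤ) = p + (n : ℤ) + (i : ℤ) := by push_cast; ring
  rw [h2] at h1
  rw [h1]
  apply Fin.ext
  rw [List.getElem_ofFn]
  have h3 := hn3 i (by omega)
  show V (n + i) = _
  rw [h3, List.getD_eq_getElem _ _ hi]

open Classical in
/-- Let `x` be a finite nonzero configuration, `L` a natural number and `ε, κ, δ > 0`. Let `S` be a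
continuous map of a compact Hausdorff space `Y` all of whose orbits are dense, and `W ⊆ Y` open and
nonempty. There is an `M₀` such that for all `s` and all `M ≥ M₀`: for all but at most `δ M` of the
times `n` with `s ≤ n < s + M`, for every integer `A` with `-n log_6 (3/2) ≤ A` and `A + ε n ≤ n`,
every point `y ∈ Y` and every word `w` of length `L` there are at least `M ^ (1 - κ)` cells `p` with
`A ≤ p`, `p + L ≤ A + ε n` such that `F^n x` shows `w` at `p, …, p + L - 1` and `S ^ (p - A) y ∈ W`. -/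
theorem result (x : ℤ → Fin 6) (hfin : {i | x i ≠ 0}.Finite) (hx : ∃ i, x i ≠ 0) (L : ℕ)
    (ε κ δ : ℝ) (hε : 0 < ε) (hκ : 0 < κ) (hδ : 0 < δ)
    {Y : Type*} [TopologicalSpace Y] [CompactSpace Y] [T2Space Y] (S : Y → Y) (hS : Continuous S)
    (hmin : ∀ y : Y, Dense (Set.range fun n : ℕ => S^[n] y)) (W : Set Y) (hW : IsOpen W)
    (hWn : W.Nonempty) :
    ∃ M₀ : ℕ, ∀ s M : ℕ, M₀ ≤ M →
      (((Finset.Ico s (s + M)).filter (fun n : ℕ => ¬ ∀ A : ℤ,
        -((n : ℝ) * (Real.log (3 / 2) / Real.log 6)) ≤ A → A + ε * n ≤ n →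
          ∀ y : Y, ∀ w : List (Fin 6), w.length = L →
            (M : ℝ) ^ (1 - κ) ≤ (((Finset.Icc A ⌊A + ε * n⌋).filter (fun p : ℤ =>
              (p : ℝ) + L ≤ A + ε * n ∧ S^[(p - A).toNat] y ∈ W ∧
                ShowsAt (F^[n] x) w p)).card : ℝ))).card : ℝ) ≤ δ * M := by
  obtain ⟨v, hv⟩ := univ_list hS hmin hW hWn L
  obtain ⟨M0, hM0⟩ := WordsInRowWindows.result x hfin hx v.length ε (κ / 2) δ hε (by positivity) hδ
  have hlim : Tendsto (fun M : ℕ => (M : ℝ) ^ (κ / 2)) atTop atTop :=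
    (tendsto_rpow_atTop (by positivity : 0 < κ / 2)).comp tendsto_natCast_atTop_atTop
  obtain ⟨M1, hM1⟩ := (hlim.eventually_ge_atTop ((v.length : ℝ) + 1)).exists_forall_of_atTop
  refine ⟨max (max M0 M1) 1, fun s M hM => ?_⟩
  have h0 : M0 ≤ M := ((le_max_left _ _).trans (le_max_left _ _)).trans hM
  have h1 : M1 ≤ M := ((le_max_right _ _).trans (le_max_left _ _)).trans hM
  have h2 : 1 ≤ M := (le_max_right _ _).trans hM
  have hMR : (0 : ℝ) < M := by exact_mod_cast h2
  refine le_trans (Nat.cast_le.2 (Finset.card_le_card ?_)) (hM0 s M h0)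
  intro n hn
  rw [Finset.mem_filter] at hn ⊢
  refine ⟨hn.1, fun hall => hn.2 fun A hA1 hA2 y w hw => ?_⟩
  have h3 := hall A hA1 hA2 v rfl
  set P := (Finset.Icc A ⌊A + ε * n⌋).filter (fun p : ℤ =>
      (p : ℝ) + v.length ≤ A + ε * n ∧ ShowsAt (F^[n] x) v p) with hP
  set Q := (Finset.Icc A ⌊A + ε * n⌋).filter (fun p : ℤ =>
      (p : ℝ) + L ≤ A + ε * n ∧ S^[(p - A).toNat] y ∈ W ∧ ShowsAt (F^[n] x) w p) with hQ
  have hf : ∀ p : ℤ, ∃ m : ℕ, ShowsAt (F^[n] x) v p →
      m + L ≤ v.length ∧ S^[m] (S^[(p - A).toNat] y) ∈ W ∧ ShowsAt (F^[n] x) w (p + m) := by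
    intro p
    by_cases hp : ShowsAt (F^[n] x) v p
    · obtain ⟨m, hm⟩ := hv _ p hp (S^[(p - A).toNat] y) w hw
      exact ⟨m, fun _ => hm⟩
    · exact ⟨0, fun h => absurd h hp⟩
  choose f hf using hf
  have h4 : P.card ≤ (v.length + 1) * (P.image fun p => p + f p).card := by
    refine Finset.card_le_mul_card_image P (v.length + 1) fun i _ => ?_
    have h5 : P.filter (fun p => p + f p = i) ⊆ Finset.Icc (i - v.length) i := by
      intro p hp
      rw [Finset.mem_filter, hP, Finset.mem_filter] at hp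
      obtain ⟨⟨-, -, hp1⟩, hp2⟩ := hp
      obtain ⟨h6, -⟩ := hf p hp1
      rw [Finset.mem_Icc]
      omega
    refine (Finset.card_le_card h5).trans ?_
    rw [Int.card_Icc]
    omega
  have h5 : P.image (fun p => p + f p) ⊆ Q := by
    intro i hi
    rw [Finset.mem_image] at hi
    obtain ⟨p, hp, rfl⟩ := hi
    rw [hP, Finset.mem_filter, Finset.mem_Icc] at hp
    obtain ⟨⟨hp1, -⟩, hp2, hp3⟩ := hp
    obtain ⟨h6, h7, h8⟩ := hf p hp3
    have h9 : ((f p : ℝ)) + L ≤ v.length := by exact_mod_cast h6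
    have hL0 : (0 : ℝ) ≤ L := Nat.cast_nonneg _
    rw [hQ, Finset.mem_filter, Finset.mem_Icc]
    refine ⟨⟨by omega, Int.le_floor.2 ?_⟩, ?_, ?_, h8⟩
    · push_cast; linarith
    · push_cast; linarith
    · have e : (p + (f p : ℤ) - A).toNat = f p + (p - A).toNat := by omega
      rw [e, Function.iterate_add_apply]
      exact h7
  have h6 : (M : ℝ) ^ (1 - κ / 2) ≤ ((v.length : ℝ) + 1) * (Q.card : ℝ) := by
    refine h3.trans ?_
    have h7 : P.card ≤ (v.length + 1) * Q.card :=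
      h4.trans (Nat.mul_le_mul_left _ (Finset.card_le_card h5))
    exact_mod_cast h7
  have h7 : (M : ℝ) ^ (1 - κ / 2) = (M : ℝ) ^ (κ / 2) * (M : ℝ) ^ (1 - κ) := by
    rw [← Real.rpow_add hMR]
    congr 1
    ring
  rw [h7] at h6
  have h8 : ((v.length : ℝ) + 1) * (M : ℝ) ^ (1 - κ) ≤ (M : ℝ) ^ (κ / 2) * (M : ℝ) ^ (1 - κ) :=
    mul_le_mul_of_nonneg_right (hM1 M h1) (by positivity)
  have h9 : (0 : ℝ) < (v.length : ℝ) + 1 := by positivity
  exact le_of_mul_le_mul_left (h8.trans h6) h9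

end Pool.Agent.Results.MP_cc0c1a_nt.VisitCells
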