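import Pool.Agent.Q227.Vis.Col2
import Pool.Agent.Results.MP_cc0c1a_nt.WordsInRowWindows

/-!
# Words in the space-time diagram at the visit pairs of minimal `ℕ × ℕ`-systems

Let `x` be a finite nonzero configuration, `S₁, S₂` commuting continuous maps of a compact Hausdorff
space `Y` such that all orbits `{S₁ ^ n S₂ ^ p y}` are dense, and `W ⊆ Y` open and nonempty. There is a
bound `N` such that among any `M` consecutive times `n` all but `δ M` are such that in every window of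
`ε n` consecutive cells of the part `[0, n)` of the rows, for EVERY point `y` of `Y` and every word of
length `L`, there are at least `M ^ (1 - κ)` cells `p` at which the word is shown by `F^m x` at a time
`m` with `n ≤ m ≤ n + N` and `S₁ ^ m S₂ ^ p y ∈ W`.
-/

set_option autoImplicit false

open Filter Topology

namespace Pool.Agent.Results.MP_cc0c1a_nt.VisitPairs

open Pool.Agent.H429R2.Auto (F)
open WordsInRowWindows (ShowsAt)

open Classical in
/-- Let `x` be a finite nonzero configuration and `L` a natural number. Let `S₁, S₂` be commuting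
continuous maps of a compact Hausdorff space `Y` such that the orbit `{S₁ ^ n S₂ ^ p y : n, p ≥ 0}` of
every point is dense, and let `W ⊆ Y` be open and nonempty. There is `N` such that for all
`ε, κ, δ > 0` there is an `M₀` such that for all `s` and all `M ≥ M₀`: for all but at most `δ M` of the
times `n` with `s ≤ n < s + M`, for every natural number `A` with `A + ε n ≤ n`, every `y ∈ Y` and
every word `w` of length `L` there are at least `M ^ (1 - κ)` cells `p` with `A ≤ p`, `p + L ≤ A + ε n`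
such that for some `q ≤ N` the configuration `F^(n + q) x` shows `w` at `p, …, p + L - 1` and
`S₁ ^ (n + q) S₂ ^ p y ∈ W`. -/
theorem result (x : ℤ → Fin 6) (hfin : {i | x i ≠ 0}.Finite) (hx : ∃ i, x i ≠ 0) (L : ℕ)
    {Y : Type*} [TopologicalSpace Y] [CompactSpace Y] [T2Space Y] (S₁ S₂ : Y → Y)
    (h₁ : Continuous S₁) (h₂ : Continuous S₂) (hc : Function.Commute S₁ S₂)
    (hmin : ∀ y : Y, Dense (Set.range fun n : ℕ × ℕ => S₁^[n.1] (S₂^[n.2] y)))
    (W : Set Y) (hW : IsOpen W) (hWn : W.Nonempty) :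
    ∃ N : ℕ, ∀ ε κ δ : ℝ, 0 < ε → 0 < κ → 0 < δ → ∃ M₀ : ℕ, ∀ s M : ℕ, M₀ ≤ M →
      (((Finset.Ico s (s + M)).filter (fun n : ℕ => ¬ ∀ A : ℕ, (A : ℝ) + ε * n ≤ n →
          ∀ y : Y, ∀ w : List (Fin 6), w.length = L →
            (M : ℝ) ^ (1 - κ) ≤ (((Finset.Icc A ⌊A + ε * n⌋₊).filter (fun p : ℕ =>
              (p : ℝ) + L ≤ A + ε * n ∧ ∃ q ≤ N, S₁^[n + q] (S₂^[p] y) ∈ W ∧
                ShowsAt (F^[n + q] x) w p)).card : ℝ))).card : ℝ) ≤ δ * M := by
  obtain ⟨v, N, hvl, hv⟩ := Pool.Agent.Q227.Vis.univ_col2 h₁ h₂ hc hmin hW hWn L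
  refine ⟨N, fun ε κ δ hε hκ hδ => ?_⟩
  obtain ⟨M0, hM0⟩ := WordsInRowWindows.result x hfin hx v.length ε (κ / 2) δ hε (by positivity) hδ
  have hlim : Tendsto (fun M : ℕ => (M : ℝ) ^ (κ / 2)) atTop atTop :=
    (tendsto_rpow_atTop (by positivity : 0 < κ / 2)).comp tendsto_natCast_atTop_atTop
  obtain ⟨M1, hM1⟩ := (hlim.eventually_ge_atTop ((N : ℝ) + 1)).exists_forall_of_atTop
  refine ⟨max (max M0 M1) 1, fun s M hM => ?_⟩
  have h0 : M0 ≤ M := by omega
  have h1 : M1 ≤ M := by omega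
  have h2 : 1 ≤ M := by omega
  have hMR : (0 : ℝ) < M := by exact_mod_cast h2
  refine le_trans (Nat.cast_le.2 (Finset.card_le_card ?_)) (hM0 s M h0)
  intro n hn
  rw [Finset.mem_filter] at hn ⊢
  refine ⟨hn.1, fun hall => hn.2 fun A hA y w hw => ?_⟩
  have hεn : 0 ≤ ε * n := by positivity
  have hlog : 0 ≤ (n : ℝ) * (Real.log (3 / 2) / Real.log 6) :=
    mul_nonneg (Nat.cast_nonneg _) (div_nonneg (Real.log_nonneg (by norm_num))
      (Real.log_nonneg (by norm_num)))
  have hA0 : (0 : ℝ) ≤ A := Nat.cast_nonneg _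
  have h3 := hall (A : ℤ) (by push_cast; linarith) (by push_cast; exact hA) v rfl
  push_cast at h3
  set P := (Finset.Icc (A : ℤ) ⌊(A : ℝ) + ε * n⌋).filter (fun p : ℤ =>
      (p : ℝ) + v.length ≤ A + ε * n ∧ ShowsAt (F^[n] x) v p) with hP
  set Q := (Finset.Icc A ⌊(A : ℝ) + ε * n⌋₊).filter (fun p : ℕ =>
      (p : ℝ) + L ≤ A + ε * n ∧ ∃ q ≤ N, S₁^[n + q] (S₂^[p] y) ∈ W ∧
                ShowsAt (F^[n + q] x) w p) with hQ
  have hf : ∀ p : ℤ, ∃ a b : ℕ, ShowsAt (F^[n] x) v p →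
      a ≤ N ∧ b ≤ N ∧ S₁^[a] (S₂^[b] (S₁^[n] (S₂^[(p + N).toNat] y))) ∈ W ∧
        ShowsAt (F^[a] (F^[n] x)) w (p + N + b) := by
    intro p
    by_cases hp : ShowsAt (F^[n] x) v p
    · obtain ⟨a, ha, b, hb, h4, h5⟩ := hv (F^[n] x) (p + N) (by
        intro i hi
        have := hp i hi
        rwa [show p + N - N + i = p + i by ring]) (S₁^[n] (S₂^[(p + N).toNat] y)) w hw
      exact ⟨a, b, fun _ => ⟨ha, hb, h4, h5⟩⟩
    · exact ⟨0, 0, fun h => absurd h hp⟩
  choose a b hab using hf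
  have h4 : P.card ≤ (N + 1) * (P.image fun p => (p + N + b p).toNat).card := by
    refine Finset.card_le_mul_card_image P (N + 1) fun i _ => ?_
    have h5 : P.filter (fun p => (p + N + b p).toNat = i) ⊆
        Finset.Icc ((i : ℤ) - 2 * N) (i - N) := by
      intro p hp
      rw [Finset.mem_filter, hP, Finset.mem_filter, Finset.mem_Icc] at hp
      obtain ⟨⟨⟨hp0, -⟩, -, hp1⟩, hp2⟩ := hp
      obtain ⟨-, h6, -⟩ := hab p hp1
      rw [Finset.mem_Icc]
      omega
    refine (Finset.card_le_card h5).trans ?_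
    rw [Int.card_Icc]
    omega
  have h5 : P.image (fun p => (p + N + b p).toNat) ⊆ Q := by
    intro i hi
    rw [Finset.mem_image] at hi
    obtain ⟨p, hp, rfl⟩ := hi
    rw [hP, Finset.mem_filter, Finset.mem_Icc] at hp
    obtain ⟨⟨hp1, -⟩, hp2, hp3⟩ := hp
    obtain ⟨h6, h7, h8, h9⟩ := hab p hp3
    obtain ⟨p', rfl⟩ := Int.eq_ofNat_of_zero_le (by omega : 0 ≤ p)
    have e1 : ((p' : ℤ) + N + b p').toNat = p' + N + b p' := by omega
    have e2 : ((p' : ℤ) + N).toNat = p' + N := by omega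
    rw [e2] at h8
    have hL0 : (0 : ℝ) ≤ L := Nat.cast_nonneg _
    have h10 : ((b (p' : ℤ) : ℕ) : ℝ) ≤ N := by exact_mod_cast h7
    have hvR : ((v.length : ℕ) : ℝ) = 3 * N + L := by rw [hvl]; push_cast; ring
    have hp2' : (p' : ℝ) + (3 * N + L) ≤ A + ε * n := by
      rw [← hvR]
      have : (((p' : ℕ) : ℤ) : ℝ) = (p' : ℝ) := by push_cast; rfl
      rw [← this]
      exact hp2
    have hN0 : (0 : ℝ) ≤ N := Nat.cast_nonneg _
    rw [e1, hQ, Finset.mem_filter, Finset.mem_Icc]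
    refine ⟨⟨by omega, Nat.le_floor ?_⟩, ?_, a p', h6, ?_, ?_⟩
    · push_cast; linarith
    · push_cast; linarith
    · have e3 : S₁^[n + a p'] (S₂^[p' + N + b p'] y) =
          S₁^[a p'] (S₂^[b p'] (S₁^[n] (S₂^[p' + N] y))) := by
        rw [add_comm n, Function.iterate_add_apply, add_comm (p' + N), Function.iterate_add_apply]
        congr 1
        exact (hc.iterate_iterate n (b p')) _
      rw [e3]
      exact h8
    · rw [add_comm n, Function.iterate_add_apply]
      push_cast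
      exact h9
  have h6 : (M : ℝ) ^ (1 - κ / 2) ≤ ((N : ℝ) + 1) * (Q.card : ℝ) := by
    refine h3.trans ?_
    have h7 : P.card ≤ (N + 1) * Q.card :=
      h4.trans (Nat.mul_le_mul_left _ (Finset.card_le_card h5))
    exact_mod_cast h7
  have h7 : (M : ℝ) ^ (1 - κ / 2) = (M : ℝ) ^ (κ / 2) * (M : ℝ) ^ (1 - κ) := by
    rw [← Real.rpow_add hMR]
    congr 1
    ring
  rw [h7] at h6
  have h8 : ((N : ℝ) + 1) * (M : ℝ) ^ (1 - κ) ≤ (M : ℝ) ^ (κ / 2) * (M : ℝ) ^ (1 - κ) :=
    mul_le_mul_of_nonneg_right (hM1 M h1) (by positivity)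
  have h9 : (0 : ℝ) < (N : ℝ) + 1 := by positivity
  exact le_of_mul_le_mul_left (h8.trans h6) h9

end Pool.Agent.Results.MP_cc0c1a_nt.VisitPairs
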