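import Pool.Agent.Q227.Vis.Col
import Pool.Agent.Results.MP_cc0c1a_nt.WordsInColumns

/-!
# Words at the visit times of minimal systems, at almost every position

Let `x` be a finite nonzero configuration, `(Y, S)` a minimal system (`Y` compact Hausdorff, all orbits
dense) and `W ⊆ Y` open and nonempty. All but `δ M` of the positions `p` in `[-M, M]` are such that in
every window of `l ≥ ε M` consecutive times up to `R M` in which `p` is a position of the rows, for
EVERY point `y` of `Y`, every word of length `L` is shown at the position `p` by `M ^ (1 - κ)` or more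
of the configurations `F^n x` with `S ^ n y ∈ W`.
-/

set_option autoImplicit false

open Filter Topology

namespace Pool.Agent.Results.MP_cc0c1a_nt.VisitTimes

open Pool.Agent.H429R2.Auto (F)
open WordsInColumns (ShowsAt)

open Classical in
/-- Let `x` be a finite nonzero configuration, `L, R` natural numbers and `ε, κ, δ > 0`. Let `S` be a
continuous map of a compact Hausdorff space `Y` all of whose orbits are dense, and `W ⊆ Y` open and
nonempty. There is an `M₀` such that for all `M ≥ M₀`: for all but at most `δ M` of the positions `p`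
with `-M ≤ p ≤ M`, every window of times `[s, s + l)` with `p ≤ s`, `-s log_6 (3/2) ≤ p`,
`s + l ≤ R M` and `l ≥ ε M`, every point `y ∈ Y` and every word `w` of length `L`, there are at least
`M ^ (1 - κ)` times `n` with `s ≤ n < s + l` such that `S ^ n y ∈ W` and `F^n x` shows `w` at the
position `p`. -/
theorem result (x : ℤ → Fin 6) (hfin : {i | x i ≠ 0}.Finite) (hx : ∃ i, x i ≠ 0) (L R : ℕ)
    (ε κ δ : ℝ) (hε : 0 < ε) (hκ : 0 < κ) (hδ : 0 < δ)
    {Y : Type*} [TopologicalSpace Y] [CompactSpace Y] [T2Space Y] (S : Y → Y) (hS : Continuous S)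
    (hmin : ∀ y : Y, Dense (Set.range fun n : ℕ => S^[n] y)) (W : Set Y) (hW : IsOpen W)
    (hWn : W.Nonempty) :
    ∃ M₀ : ℕ, ∀ M : ℕ, M₀ ≤ M →
      (((Finset.Icc (-(M : ℤ)) M).filter (fun p : ℤ => ¬ ∀ s l : ℕ, p ≤ s →
        -((s : ℝ) * (Real.log (3 / 2) / Real.log 6)) ≤ p → s + l ≤ R * M → ε * M ≤ l →
          ∀ y : Y, ∀ w : List (Fin 6), w.length = L →
            (M : ℝ) ^ (1 - κ) ≤ (((Finset.Ico s (s + l)).filter (fun n : ℕ =>
              S^[n] y ∈ W ∧ ShowsAt (F^[n] x) w p)).card : ℝ))).card : ℝ) ≤ δ * M := by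
  obtain ⟨v, N, hv⟩ := Pool.Agent.Q227.Vis.univ_col hS hmin hW hWn L
  obtain ⟨M0, hM0⟩ := WordsInColumns.result x hfin hx v.length R (ε / 2) (κ / 2) (δ / 2)
    (by positivity) (by positivity) (by positivity)
  have hlim : Tendsto (fun M : ℕ => (M : ℝ) ^ (κ / 2)) atTop atTop :=
    (tendsto_rpow_atTop (by positivity : 0 < κ / 2)).comp tendsto_natCast_atTop_atTop
  obtain ⟨M1, hM1⟩ := (hlim.eventually_ge_atTop ((N : ℝ) + 1)).exists_forall_of_atTop
  set c : ℝ := Real.log (3 / 2) / Real.log 6 with hc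
  have hc0 : 0 < c := div_pos (Real.log_pos (by norm_num)) (Real.log_pos (by norm_num))
  set s₀ : ℕ := ⌈(N : ℝ) / c⌉₊ with hs₀
  have hs₀' : (N : ℝ) ≤ s₀ * c := by
    have := Nat.le_ceil ((N : ℝ) / c)
    rwa [div_le_iff₀ hc0] at this
  obtain ⟨M2, hM2⟩ := exists_nat_ge (((s₀ : ℝ) + N) / (ε / 2))
  obtain ⟨M3, hM3⟩ := exists_nat_ge ((N : ℝ) / (δ / 2))
  refine ⟨max (max (max M0 M1) (max M2 M3)) 1, fun M hM => ?_⟩
  have h0 : M0 ≤ M := by omega
  have h1 : M1 ≤ M := by omega
  have h2 : M2 ≤ M := by omega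
  have h3 : M3 ≤ M := by omega
  have h4 : 1 ≤ M := by omega
  have hMR : (0 : ℝ) < M := by exact_mod_cast h4
  have hbig : (s₀ : ℝ) + N ≤ ε / 2 * M := by
    rw [div_le_iff₀ (by positivity)] at hM2
    have : (M2 : ℝ) * (ε / 2) ≤ M * (ε / 2) := by
      have : (M2 : ℝ) ≤ M := by exact_mod_cast h2
      gcongr
    linarith
  have hbig2 : (N : ℝ) ≤ δ / 2 * M := by
    rw [div_le_iff₀ (by positivity)] at hM3
    have : (M3 : ℝ) * (δ / 2) ≤ M * (δ / 2) := by
      have : (M3 : ℝ) ≤ M := by exact_mod_cast h3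
      gcongr
    linarith
  set Bad := (Finset.Icc (-(M : ℤ)) M).filter (fun p : ℤ => ¬ ∀ s l : ℕ, p ≤ s →
        -((s : ℝ) * c) ≤ p → s + l ≤ R * M → ε / 2 * M ≤ l →
          ∀ w : List (Fin 6), w.length = v.length →
            (M : ℝ) ^ (1 - κ / 2) ≤ (((Finset.Ico s (s + l)).filter (fun n : ℕ =>
              ShowsAt (F^[n] x) w p)).card : ℝ)) with hBad
  have hBadc : (Bad.card : ℝ) ≤ δ / 2 * M := hM0 M h0
  have hsub : (Finset.Icc (-(M : ℤ)) M).filter (fun p : ℤ => ¬ ∀ s l : ℕ, p ≤ s →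
        -((s : ℝ) * c) ≤ p → s + l ≤ R * M → ε * M ≤ l →
          ∀ y : Y, ∀ w : List (Fin 6), w.length = L →
            (M : ℝ) ^ (1 - κ) ≤ (((Finset.Ico s (s + l)).filter (fun n : ℕ =>
              S^[n] y ∈ W ∧ ShowsAt (F^[n] x) w p)).card : ℝ)) ⊆
      Finset.Ico (-(M : ℤ)) (-(M : ℤ) + N) ∪ Bad.image (fun p => p + N) := by
    intro p hp
    rw [Finset.mem_filter, Finset.mem_Icc] at hp
    obtain ⟨⟨hp1, hp2⟩, hp3⟩ := hp
    rw [Finset.mem_union, or_iff_not_imp_left, Finset.mem_Ico]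
    intro hp4
    rw [Finset.mem_image]
    refine ⟨p - N, ?_, by ring⟩
    rw [hBad, Finset.mem_filter, Finset.mem_Icc]
    refine ⟨by omega, fun hall => hp3 fun s l hs1 hs2 hs3 hs4 y w hw => ?_⟩
    -- the shortened window
    have hlN : (s₀ : ℝ) + N ≤ l := by
      have : (0 : ℝ) ≤ ε / 2 * M := by positivity
      linarith
    have hlN' : s₀ + N ≤ l := by exact_mod_cast hlN
    have h5 := hall (s + s₀) (l - s₀ - N) (by push_cast; omega) (by
      push_cast
      nlinarith) (by omega) (by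
      rw [show l - s₀ - N = l - (s₀ + N) by omega, Nat.cast_sub hlN']
      push_cast
      linarith) v rfl
    set P := (Finset.Ico (s + s₀) (s + s₀ + (l - s₀ - N))).filter (fun n : ℕ =>
      ShowsAt (F^[n] x) v (p - N)) with hP
    set Q := (Finset.Ico s (s + l)).filter (fun n : ℕ =>
      S^[n] y ∈ W ∧ ShowsAt (F^[n] x) w p) with hQ
    have hf : ∀ n : ℕ, ∃ m : ℕ, ShowsAt (F^[n] x) v (p - N) →
        m ≤ N ∧ S^[m] (S^[n] y) ∈ W ∧ ShowsAt (F^[m] (F^[n] x)) w p := by
      intro n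
      by_cases hn : ShowsAt (F^[n] x) v (p - N)
      · obtain ⟨m, hm⟩ := hv (F^[n] x) p hn (S^[n] y) w hw
        exact ⟨m, fun _ => hm⟩
      · exact ⟨0, fun h => absurd h hn⟩
    choose g hg using hf
    have h6 : P.card ≤ (N + 1) * (P.image fun n => n + g n).card := by
      refine Finset.card_le_mul_card_image P (N + 1) fun i _ => ?_
      have h7 : P.filter (fun n => n + g n = i) ⊆ Finset.Icc (i - N) i := by
        intro n hn
        rw [Finset.mem_filter, hP, Finset.mem_filter] at hn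
        obtain ⟨⟨-, hn1⟩, hn2⟩ := hn
        obtain ⟨h8, -⟩ := hg n hn1
        rw [Finset.mem_Icc]
        omega
      refine (Finset.card_le_card h7).trans ?_
      rw [Nat.card_Icc]
      omega
    have h7 : P.image (fun n => n + g n) ⊆ Q := by
      intro i hi
      rw [Finset.mem_image] at hi
      obtain ⟨n, hn, rfl⟩ := hi
      rw [hP, Finset.mem_filter, Finset.mem_Ico] at hn
      obtain ⟨⟨hn1, hn2⟩, hn3⟩ := hn
      obtain ⟨h8, h9, h10⟩ := hg n hn3
      rw [hQ, Finset.mem_filter, Finset.mem_Ico, add_comm n (g n), Function.iterate_add_apply,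
        Function.iterate_add_apply]
      exact ⟨by omega, h9, h10⟩
    have h8 : (M : ℝ) ^ (1 - κ / 2) ≤ ((N : ℝ) + 1) * (Q.card : ℝ) := by
      refine h5.trans ?_
      have h9 : P.card ≤ (N + 1) * Q.card :=
        h6.trans (Nat.mul_le_mul_left _ (Finset.card_le_card h7))
      exact_mod_cast h9
    have h9 : (M : ℝ) ^ (1 - κ / 2) = (M : ℝ) ^ (κ / 2) * (M : ℝ) ^ (1 - κ) := by
      rw [← Real.rpow_add hMR]
      congr 1
      ring
    rw [h9] at h8
    have h10 : ((N : ℝ) + 1) * (M : ℝ) ^ (1 - κ) ≤ (M : ℝ) ^ (κ / 2) * (M : ℝ) ^ (1 - κ) :=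
      mul_le_mul_of_nonneg_right (hM1 M h1) (by positivity)
    have h11 : (0 : ℝ) < (N : ℝ) + 1 := by positivity
    exact le_of_mul_le_mul_left (h10.trans h8) h11
  refine (Nat.cast_le.2 (Finset.card_le_card hsub)).trans ?_
  refine (Nat.cast_le.2 (Finset.card_union_le _ _)).trans ?_
  have h5 : (Finset.Ico (-(M : ℤ)) (-(M : ℤ) + N)).card = N := by
    rw [Int.card_Ico]; simp
  have h6 : ((Bad.image (fun p => p + (N : ℤ))).card : ℝ) ≤ δ / 2 * M :=
    (Nat.cast_le.2 Finset.card_image_le).trans hBadc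
  push_cast
  rw [h5]
  linarith

end Pool.Agent.Results.MP_cc0c1a_nt.VisitTimes
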